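import Pool.Agent.Q221.Conj.MonadMain

set_option autoImplicit false

/-!
# The p-conjugacy problem can be undecidable for a finite monadic confluent system

The rules of the system have left sides of length two and right sides of length one. Two stack
machines work on the factors of a word: in `X d(p) Y · Z c(q) W` the word `d(p)` of indices is read
from right to left against the word `c(q)` of letters, and this gives `X σ c(w) W` exactly when `q`
is the reverse of `w f(p)`; in `Z c(q) W · X d(p) Y` the word `d(p)` is read from left to right, and
this gives `Z c(K) τ Y` exactly when `q` is the reverse of `h(p) K`. So the two words `X σ c(w) W`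
and `Z c(K) τ Y` are p-conjugate exactly when `w f(p) = h(p) K` has a solution `p`, which expresses
the halting of a queue machine.

The definitions are in `Pool.Agent.Q221.Conj.Def`.
-/

namespace Pool.Agent.Results.MP_eab232_al.PConjUndecidable

open Pool.Agent.Q221.Conj

/-- There is a finite monadic confluent string rewriting system for which no algorithm decides,
given two words, whether their classes are `p`-conjugate. -/
theorem result : ∃ (k : ℕ) (R : Set (List (Fin k) × List (Fin k))),
    R.Finite ∧ Monadic R ∧ Confluent R ∧
    ¬ ComputablePred (fun p : List (Fin k) × List (Fin k) => PConj (cl R p.1) (cl R p.2)) :=
  Monad.main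

end Pool.Agent.Results.MP_eab232_al.PConjUndecidable
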